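import Pool.Agent.K3h26.CS.Main

/-!
# MP_2823fe_lc: the Carlson-Simpson ideal does not canonize to hypersmooth relations

Let `A E B` hold if the numbers of classes of `A` and of `B` with least element below `k` differ by an
amount which is bounded independently of `k`. This is a countable union of closed equivalence
relations, and for no Borel set `S` outside of the ideal `I(𝓔_∞)` is the restriction of `E` to `S`
Borel reducible to a hypersmooth equivalence relation (it is not even a countable union of
smooth equivalence relations).

Idea of the proof. The relation depends only on the sets `μ(A)` of the least elements. If the Borel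
set `S` is not in the ideal then, merging classes, one sees that the analytic set
`{μ(A) : A ∈ S}` meets every set `[t, Y]`, `Y ⊆ X`, of the classical Ellentuck space, for some `t`,
`X`; since analytic sets are completely Ramsey (Silver), it contains some `[t, Y]`. There the
relation of bounded differences on the product `Z` of the sets `{0, …, n}` can be coded, as
it is invariant under order preserving renumbering. A Borel uniformization on a comeagre set gives
a countable family of Borel maps `H n` on `Z` such that, on a comeagre set, `a` and `b` have
bounded difference if and only if `H n a = H n b` for some `n`. For one `n` and one basic open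
set `U` the equality `H n a = H n (a + w)` holds for generic `a ∈ U` and generic `0-1`-sequences `w`
which vanish on a fixed initial segment; comparing `w` with its change at one coordinate one
gets that `H n` is invariant under unit steps in single coordinates, so that it is generically
constant on `U`, although generic pairs do not have bounded difference.
-/

set_option autoImplicit false

open Set MeasureTheory

universe u

namespace Pool.Agent.Results.MP_2823fe_lc.NotHypersmooth

open Pool.Agent.K3h26.CS

theorem self_mem_basic {s : FinEq} {A B : EInf} (h : B ∈ basic s A) : B ∈ basic s B :=
  ⟨fun _ _ h => h, h.2⟩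

theorem bot_classes : (⊥ : Setoid ℕ).classes.Infinite := by
  rw [classes_iff]
  have : mins (⊥ : Setoid ℕ) = univ := by
    ext m
    simp only [mins, mem_univ, iff_true, Set.mem_ofPred_eq]
    intro k hk
    have : k = m := hk
    omega
  rw [this]
  exact infinite_univ

theorem univ_not_null : ¬ Null (univ : Set EInf) := by
  intro h
  let A : EInf := ⟨⊥, bot_classes⟩
  obtain ⟨B, hB, hB'⟩ := h (restr 0 A) A ⟨A, fun _ _ h => h, 0, rfl⟩
  rw [inter_univ] at hB'
  have := self_mem_basic hB
  rw [hB'] at this
  exact this

/-- **Negative answer to Q1.** There is an analytic equivalence relation `E` on `𝓔_∞` such that for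
no Borel set `S` outside of the ideal the restriction of `E` to `S` is Borel reducible to a
hypersmooth equivalence relation; in particular the ideal canonizes `E` to no hypersmooth
equivalence relation `F` with `F ≤_B E`. -/
theorem result : ∃ E : EInf → EInf → Prop, Equivalence E ∧
    AnalyticSet {p : EInf × EInf | E p.1 p.2} ∧
    (∀ (S : Set EInf), IsBorel S → ¬ Null S →
      ∀ (Y : Type u) [TopologicalSpace Y] [PolishSpace Y] (F : Y → Y → Prop), Hypersmooth F →
        ¬ BorelReducible (Restrict E S) F) ∧
    (∀ (Y : Type u) [TopologicalSpace Y] [PolishSpace Y] (F : Y → Y → Prop), Hypersmooth F →
      BorelReducible F E → ¬ Canonizes E F) := by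
  refine ⟨EE, EE_equivalence, EE_analytic, fun S hS hN Y _ _ F hF => not_reducible hS hN hF,
    fun Y _ _ F hF _ hcan => ?_⟩
  obtain ⟨T, -, hT1, hT2, hT3⟩ := hcan univ
    (@MeasurableSet.univ EInf (borel EInf)) univ_not_null
  exact not_reducible hT1 hT2 hF hT3

end Pool.Agent.Results.MP_2823fe_lc.NotHypersmooth
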